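import Mathlib

namespace Pool.Agent.Results.MP_fbfbfd_pr.SparseJumps

open MeasureTheory ProbabilityTheory Filter Topology Set
open scoped ENNReal

/-! ## The notions of the problem -/

section Defs

variable {d : ℕ} {Ω : Type} [MeasurableSpace Ω]

/-- `ξ 0, ξ 1, …` are i.i.d. random vectors with values in `ℤ^d`. -/
structure IsStepSequence (P : Measure Ω) (ξ : ℕ → Ω → (Fin d → ℤ)) : Prop where
  meas : ∀ n, Measurable (ξ n)
  indep : iIndepFun ξ P
  ident : ∀ n, IdentDistrib (ξ n) (ξ 0) P P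

/-- The random walk `X_n = ξ_1 + ⋯ + ξ_n`. -/
def walk (ξ : ℕ → Ω → (Fin d → ℤ)) (n : ℕ) (ω : Ω) : Fin d → ℤ := ∑ i ∈ Finset.range n, ξ i ω

/-- The Green function `g(0, x)`. -/
noncomputable def green (P : Measure Ω) (ξ : ℕ → Ω → (Fin d → ℤ)) (x : Fin d → ℤ) : ℝ≥0∞ :=
  ∑' n, P {ω | walk ξ n ω = x}

/-- Transience. -/
def Transient (P : Measure Ω) (ξ : ℕ → Ω → (Fin d → ℤ)) : Prop := ∀ x, green P ξ x < ∞

/-- The range of the walk. -/
def rangeOf (ξ : ℕ → Ω → (Fin d → ℤ)) (ω : Ω) : Set (Fin d → ℤ) :=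
  Set.range fun n => walk ξ n ω

/-- `U(A) = ∑ P{X_n ∈ A}`. -/
noncomputable def U (P : Measure Ω) (ξ : ℕ → Ω → (Fin d → ℤ)) (A : Set (Fin d → ℤ)) : ℝ≥0∞ :=
  ∑' n, P {ω | walk ξ n ω ∈ A}

/-- `V_k = [-2^k, 2^k)^d`. -/
def V (d k : ℕ) : Set (Fin d → ℤ) := {x | ∀ i, -2 ^ k ≤ x i ∧ x i < 2 ^ k}

/-- `S_0 = V_0`, `S_{k+1} = V_{k+1} \ V_k`. -/
def S (d : ℕ) : ℕ → Set (Fin d → ℤ)
  | 0 => V d 0
  | k + 1 => V d (k + 1) \ V d k

/-- The dyadic cube of sidelength `2^ℓ` with index `j`. -/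
def cube (ℓ : ℕ) (j : Fin d → ℤ) : Set (Fin d → ℤ) :=
  {x | ∀ i, j i * 2 ^ ℓ ≤ x i ∧ x i < (j i + 1) * 2 ^ ℓ}

/-- `N_α(A, S_k)`: the least cost of a finite cover of `A ∩ S_k` by dyadic cubes. -/
noncomputable def N (α : ℝ) (A : Set (Fin d → ℤ)) (k : ℕ) : ℝ :=
  sInf {c : ℝ | ∃ (m : ℕ) (ℓ : Fin m → ℕ) (j : Fin m → Fin d → ℤ),
    A ∩ S d k ⊆ ⋃ i, cube (ℓ i) (j i) ∧ c = ∑ i, (2 : ℝ) ^ (α * ((ℓ i : ℝ) - k - 1))}

/-- The macroscopic lower Minkowski dimension. -/
noncomputable def lowerMinkowski (A : Set (Fin d → ℤ)) : EReal :=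
  liminf (fun n : ℕ => ((Real.logb 2 ((A ∩ V d n).ncard : ℝ) / n : ℝ) : EReal)) atTop

/-- The macroscopic lower Hausdorff dimension. -/
noncomputable def lowerHausdorff (A : Set (Fin d → ℤ)) : EReal :=
  sInf {x : EReal | ∃ α : ℝ, 0 < α ∧ Tendsto (fun k => N α A k) atTop (𝓝 0) ∧ x = α}

/-- `λ_X = liminf (1/n) log U(V_n)`. -/
noncomputable def lam (P : Measure Ω) (ξ : ℕ → Ω → (Fin d → ℤ)) : EReal :=
  liminf (fun n : ℕ => ((Real.logb 2 (U P ξ (V d n)).toReal / n : ℝ) : EReal)) atTop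

end Defs

/-! ## Exponents -/

/-- `i! - 1` -/
def e (i : ℕ) : ℕ := i.factorial - 1

lemma e_mono {i j : ℕ} (h : i ≤ j) : e i ≤ e j := Nat.sub_le_sub_right (Nat.factorial_le h) 1

lemma e_succ (i : ℕ) : (i + 1) * e i ≤ e (i + 1) := by
  unfold e
  rw [Nat.factorial_succ, Nat.mul_sub, mul_one]
  omega

lemma self_le_e (i : ℕ) : i ≤ e (i + 1) + 1 := by
  unfold e
  have := Nat.self_le_factorial (i + 1)
  omega

/-- Exponents of the jumps. -/
def M (j : ℕ) : ℕ := e (2 * j + 1)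

/-- Exponents of the probabilities. -/
def a (j : ℕ) : ℕ := e (2 * j)

lemma M_mono {i j : ℕ} (h : i ≤ j) : M i ≤ M j := e_mono (by omega)

lemma a_succ (j : ℕ) : (2 * j + 2) * M j ≤ a (j + 1) := by
  have := e_succ (2 * j + 1)
  exact this

lemma M_ge (j : ℕ) : (2 * j + 1) * a j ≤ M j := e_succ (2 * j)

lemma a_ge (j : ℕ) (hj : 2 ≤ j) : 4 * j ≤ a j := by
  unfold a e
  obtain ⟨i, rfl⟩ := Nat.exists_eq_add_of_le' hj
  have h1 : (2 * (i + 2)).factorial = (2 * i + 4) * ((2 * i + 3) * (2 * i + 2).factorial) := by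
    rw [show 2 * (i + 2) = (2 * i + 2) + 1 + 1 by ring, Nat.factorial_succ, Nat.factorial_succ]
  have h2 : 2 ≤ (2 * i + 2).factorial := by
    calc 2 = Nat.factorial 2 := rfl
      _ ≤ _ := Nat.factorial_le (by omega)
  have h3 : (2 * i + 4) * ((2 * i + 3) * 2) ≤ (2 * (i + 2)).factorial := by
    rw [h1]
    gcongr
  have h4 : 4 * (i + 2) + 1 ≤ (2 * i + 4) * ((2 * i + 3) * 2) := by nlinarith
  omega

/-! ## The walk as a deterministic function of the jumps -/

/-- Position after `n` steps. -/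
def pos (ω : ℕ → ℕ) (n : ℕ) : ℤ := ∑ i ∈ Finset.range n, 2 ^ M (ω i)

lemma pos_succ (ω : ℕ → ℕ) (n : ℕ) : pos ω (n + 1) = pos ω n + 2 ^ M (ω n) :=
  Finset.sum_range_succ _ _

lemma le_pos (ω : ℕ → ℕ) (n : ℕ) : (n : ℤ) ≤ pos ω n := by
  induction n with
  | zero => simp [pos]
  | succ n ih =>
    rw [pos_succ]
    have : (1 : ℤ) ≤ 2 ^ M (ω n) := one_le_pow₀ (by norm_num)
    push_cast
    linarith

lemma hit (ω : ℕ → ℕ) (x : ℤ) (D : ℕ) (hx : 0 ≤ x)
    (hstep : ∀ n : ℕ, (n : ℤ) < x → M (ω n) ≤ D) : ∃ n, x ≤ pos ω n ∧ pos ω n < x + 2 ^ D := by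
  classical
  have hex : ∃ n, x ≤ pos ω n := by
    refine ⟨x.toNat, ?_⟩
    have := le_pos ω x.toNat
    rwa [Int.toNat_of_nonneg hx] at this
  refine ⟨Nat.find hex, Nat.find_spec hex, ?_⟩
  rcases h : Nat.find hex with _ | n
  · have h0 := Nat.find_spec hex
    rw [h] at h0
    have : pos ω 0 = 0 := by simp [pos]
    rw [this] at h0 ⊢
    have : (0 : ℤ) < 2 ^ D := by positivity
    linarith
  · have hn : ¬ x ≤ pos ω n := Nat.find_min hex (by omega)
    push Not at hn
    have h1 := hstep n (lt_of_le_of_lt (le_pos ω n) hn)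
    have h2 : (2 : ℤ) ^ M (ω n) ≤ 2 ^ D := pow_le_pow_right₀ (by norm_num) h1
    rw [pos_succ]
    linarith

/-! ## A lower bound for the cost of covers -/

lemma cost_lower (α : ℝ) (hα0 : 0 < α) (hα1 : α ≤ 1) (k D : ℕ) (hD : D + 1 ≤ k)
    (hcond : α * (k + 1) ≤ k + 1 - D) (A : Set (Fin 1 → ℤ))
    (hA : ∀ v : ℤ, 2 ^ (k - 1 - D) ≤ v → v < 2 * 2 ^ (k - 1 - D) →
      ∃ x ∈ A, v * 2 ^ D ≤ x 0 ∧ x 0 < (v + 1) * 2 ^ D)
    (m : ℕ) (ℓ : Fin m → ℕ) (j : Fin m → Fin 1 → ℤ)
    (hcov : A ∩ S 1 k ⊆ ⋃ i, cube (ℓ i) (j i)) :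
    1 / 4 ≤ ∑ i, (2 : ℝ) ^ (α * ((ℓ i : ℝ) - k - 1)) := by
  classical
  obtain ⟨k', rfl⟩ : ∃ k', k = k' + 1 := ⟨k - 1, by omega⟩
  set t : ℕ := k' + 1 - 1 - D with ht
  have htk : t + D = k' := by omega
  choose! r hrA hr1 hr2 using hA
  set I : Finset ℤ := Finset.Ico (2 ^ t) (2 * 2 ^ t) with hI
  have hIcard : I.card = 2 ^ t := by
    rw [hI, Int.card_Ico]
    have : (2 : ℤ) * 2 ^ t - 2 ^ t = ((2 ^ t : ℕ) : ℤ) := by push_cast; ring
    rw [this, Int.toNat_natCast]
  have hmem : ∀ v ∈ I, 2 ^ t ≤ v ∧ v < 2 * 2 ^ t := fun v hv => Finset.mem_Ico.1 hv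
  have hpowk : (2 : ℤ) ^ k' = 2 ^ t * 2 ^ D := by rw [← pow_add, htk]
  have hD0 : (0 : ℤ) < 2 ^ D := by positivity
  have hrS : ∀ v ∈ I, r v ∈ S 1 (k' + 1) := by
    intro v hv
    obtain ⟨h1, h2⟩ := hmem v hv
    have e1 := hr1 v h1 h2
    have e2 := hr2 v h1 h2
    have e3 : (2 : ℤ) ^ k' ≤ r v 0 := by
      rw [hpowk]
      exact le_trans (mul_le_mul_of_nonneg_right h1 hD0.le) e1
    have e4 : r v 0 < 2 ^ (k' + 1) := by
      have : (v + 1) * 2 ^ D ≤ (2 * 2 ^ t) * 2 ^ D :=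
        mul_le_mul_of_nonneg_right (by omega) hD0.le
      rw [pow_succ, hpowk]
      linarith
    have e5 : (0 : ℤ) < 2 ^ k' := by positivity
    refine ⟨?_, ?_⟩
    · intro i
      have : i = 0 := Subsingleton.elim _ _
      subst this
      refine ⟨?_, e4⟩
      have : (0 : ℤ) < 2 ^ (k' + 1) := by positivity
      linarith
    · intro h
      have := (h 0).2
      linarith
  let C : Fin m → Finset ℤ := fun i => I.filter fun v => r v ∈ cube (ℓ i) (j i)
  have hcovI : I ⊆ Finset.univ.biUnion C := by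
    intro v hv
    obtain ⟨h1, h2⟩ := hmem v hv
    have := hcov ⟨hrA v h1 h2, hrS v hv⟩
    rw [Set.mem_iUnion] at this
    obtain ⟨i, hi⟩ := this
    rw [Finset.mem_biUnion]
    exact ⟨i, Finset.mem_univ i, Finset.mem_filter.2 ⟨hv, hi⟩⟩
  have hsum : (2 : ℝ) ^ t ≤ ∑ i, ((C i).card : ℝ) := by
    have h1 := (Finset.card_le_card hcovI).trans Finset.card_biUnion_le
    rw [hIcard] at h1
    exact_mod_cast h1
  -- card of each `C i`
  have hcardI : ∀ i, ((C i).card : ℝ) ≤ 2 ^ t := by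
    intro i
    have : (C i).card ≤ 2 ^ t := by
      rw [← hIcard]; exact Finset.card_le_card (Finset.filter_subset _ _)
    exact_mod_cast this
  have hcardSmall : ∀ i, ℓ i < D → ((C i).card : ℝ) ≤ 1 := by
    intro i hi
    have : (C i).card ≤ 1 := by
      rw [Finset.card_le_one]
      have key : ∀ v ∈ C i, v = j i 0 / 2 ^ (D - ℓ i) := by
        intro v hv
        obtain ⟨hvI, hvc⟩ := Finset.mem_filter.1 hv
        obtain ⟨h1, h2⟩ := hmem v hvI
        have e1 := hr1 v h1 h2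
        have e2 := hr2 v h1 h2
        obtain ⟨c1, c2⟩ := hvc 0
        have hl : (0 : ℤ) < 2 ^ (ℓ i) := by positivity
        have q1 : r v 0 / 2 ^ D = v := by
          apply le_antisymm
          · exact Int.lt_add_one_iff.1 (Int.ediv_lt_of_lt_mul hD0 e2)
          · exact Int.le_ediv_of_mul_le hD0 e1
        have q2 : r v 0 / 2 ^ (ℓ i) = j i 0 := by
          apply le_antisymm
          · exact Int.lt_add_one_iff.1 (Int.ediv_lt_of_lt_mul hl c2)
          · exact Int.le_ediv_of_mul_le hl c1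
        have hpow : (2 : ℤ) ^ D = 2 ^ (ℓ i) * 2 ^ (D - ℓ i) := by
          rw [← pow_add]; congr 1; omega
        rw [← q1, hpow, ← Int.ediv_ediv_of_nonneg hl.le, q2]
      intro v hv w hw
      rw [key v hv, key w hw]
    exact_mod_cast this
  have hcardBig : ∀ i, D ≤ ℓ i → ((C i).card : ℝ) ≤ 2 ^ (ℓ i - D) := by
    intro i hi
    have hsub : C i ⊆ Finset.Ico (j i 0 * 2 ^ (ℓ i - D)) ((j i 0 + 1) * 2 ^ (ℓ i - D)) := by
      intro v hv
      obtain ⟨hvI, hvc⟩ := Finset.mem_filter.1 hv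
      obtain ⟨h1, h2⟩ := hmem v hvI
      have e1 := hr1 v h1 h2
      have e2 := hr2 v h1 h2
      obtain ⟨c1, c2⟩ := hvc 0
      have hpow : (2 : ℤ) ^ (ℓ i) = 2 ^ (ℓ i - D) * 2 ^ D := by
        rw [← pow_add]; congr 1; omega
      rw [hpow, ← mul_assoc] at c1 c2
      rw [Finset.mem_Ico]
      constructor
      · have : j i 0 * 2 ^ (ℓ i - D) < v + 1 := lt_of_mul_lt_mul_right (lt_of_le_of_lt c1 e2) hD0.le
        omega
      · exact lt_of_mul_lt_mul_right (lt_of_le_of_lt e1 c2) hD0.le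
    have h1 := Finset.card_le_card hsub
    rw [Int.card_Ico] at h1
    have h2 : (j i 0 + 1) * 2 ^ (ℓ i - D) - j i 0 * 2 ^ (ℓ i - D) =
        ((2 ^ (ℓ i - D) : ℕ) : ℤ) := by push_cast; ring
    rw [h2, Int.toNat_natCast] at h1
    exact_mod_cast h1
  have h4 : (2 : ℝ) ^ t * (2 : ℝ) ^ ((D : ℝ) - k' - 2) = 1 / 4 := by
    rw [← Real.rpow_natCast, ← Real.rpow_add (by norm_num)]
    have : (t : ℝ) + ((D : ℝ) - k' - 2) = -2 := by
      have : (t : ℝ) + D = k' := by exact_mod_cast htk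
      linarith
    rw [this, Real.rpow_neg (by norm_num)]
    norm_num
  have hpos : (0 : ℝ) < (2 : ℝ) ^ ((D : ℝ) - k' - 2) := by positivity
  have hcost : ∀ i, ((C i).card : ℝ) * (2 : ℝ) ^ ((D : ℝ) - k' - 2) ≤
      (2 : ℝ) ^ (α * ((ℓ i : ℝ) - ((k' + 1 : ℕ) : ℝ) - 1)) := by
    intro i
    push_cast
    push_cast at hcond
    rcases lt_or_ge (ℓ i) D with h | h
    · calc ((C i).card : ℝ) * (2 : ℝ) ^ ((D : ℝ) - k' - 2)
          ≤ 1 * (2 : ℝ) ^ ((D : ℝ) - k' - 2) :=
            mul_le_mul_of_nonneg_right (hcardSmall i h) hpos.le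
        _ = (2 : ℝ) ^ ((D : ℝ) - k' - 2) := one_mul _
        _ ≤ _ := by
          apply Real.rpow_le_rpow_of_exponent_le (by norm_num)
          have : 0 ≤ α * (ℓ i : ℝ) := by positivity
          nlinarith
    · rcases le_or_gt (ℓ i) (k' + 2) with h' | h'
      · calc ((C i).card : ℝ) * (2 : ℝ) ^ ((D : ℝ) - k' - 2)
            ≤ (2 : ℝ) ^ (ℓ i - D) * (2 : ℝ) ^ ((D : ℝ) - k' - 2) :=
              mul_le_mul_of_nonneg_right (hcardBig i h) hpos.le
          _ = (2 : ℝ) ^ ((ℓ i : ℝ) - k' - 2) := by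
            rw [← Real.rpow_natCast, ← Real.rpow_add (by norm_num), Nat.cast_sub h]
            congr 1; ring
          _ ≤ _ := by
            apply Real.rpow_le_rpow_of_exponent_le (by norm_num)
            have : (ℓ i : ℝ) ≤ k' + 2 := by exact_mod_cast h'
            nlinarith
      · calc ((C i).card : ℝ) * (2 : ℝ) ^ ((D : ℝ) - k' - 2)
            ≤ (2 : ℝ) ^ t * (2 : ℝ) ^ ((D : ℝ) - k' - 2) :=
              mul_le_mul_of_nonneg_right (hcardI i) hpos.le
          _ = 1 / 4 := h4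
          _ ≤ 1 := by norm_num
          _ ≤ _ := by
            apply Real.one_le_rpow (by norm_num)
            have : (k' : ℝ) + 2 < ℓ i := by exact_mod_cast h'
            apply mul_nonneg hα0.le
            linarith
  calc (1 : ℝ) / 4 = (2 : ℝ) ^ t * (2 : ℝ) ^ ((D : ℝ) - k' - 2) := h4.symm
    _ ≤ (∑ i, ((C i).card : ℝ)) * (2 : ℝ) ^ ((D : ℝ) - k' - 2) :=
        mul_le_mul_of_nonneg_right hsum hpos.le
    _ = ∑ i, ((C i).card : ℝ) * (2 : ℝ) ^ ((D : ℝ) - k' - 2) := Finset.sum_mul _ _ _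
    _ ≤ _ := Finset.sum_le_sum fun i _ => hcost i

/-! ## The law of the jumps -/

lemma self_le_a (j : ℕ) : j ≤ a j := by
  unfold a e
  have := Nat.self_le_factorial (2 * j)
  rcases Nat.eq_zero_or_pos j with rfl | h
  · simp
  · omega

lemma self_le_M (j : ℕ) : j ≤ M j := by
  unfold M e
  have := Nat.self_le_factorial (2 * j + 1)
  omega

lemma a_mono {i j : ℕ} (h : i ≤ j) : a i ≤ a j := e_mono (by omega)

/-- `P(index ≥ j) = 2^{-((2j)! - 1)}` -/
noncomputable def qr (j : ℕ) : ℝ := (1 / 2) ^ a j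

lemma qr_zero : qr 0 = 1 := by simp [qr, a, e]

lemma qr_pos (j : ℕ) : 0 < qr j := by unfold qr; positivity

lemma qr_le_one (j : ℕ) : qr j ≤ 1 := pow_le_one₀ (by norm_num) (by norm_num)

lemma qr_anti (j : ℕ) : qr (j + 1) ≤ qr j :=
  pow_le_pow_of_le_one (by norm_num) (by norm_num) (a_mono (Nat.le_succ j))

lemma qr_tendsto : Tendsto qr atTop (𝓝 0) := by
  have h1 : Tendsto (fun n : ℕ => ((1 : ℝ) / 2) ^ n) atTop (𝓝 0) :=
    tendsto_pow_atTop_nhds_zero_of_lt_one (by norm_num) (by norm_num)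
  exact squeeze_zero (fun j => (qr_pos j).le)
    (fun j => pow_le_pow_of_le_one (by norm_num) (by norm_num) (self_le_a j)) h1

lemma hasSum_qr : HasSum (fun j => qr j - qr (j + 1)) 1 := by
  rw [hasSum_iff_tendsto_nat_of_nonneg (fun j => sub_nonneg.2 (qr_anti j))]
  simp_rw [Finset.sum_range_sub', qr_zero]
  simpa using tendsto_const_nhds.sub qr_tendsto

lemma tsum_qr : ∑' j, ENNReal.ofReal (qr j - qr (j + 1)) = 1 := by
  rw [← ENNReal.ofReal_tsum_of_nonneg (fun j => sub_nonneg.2 (qr_anti j)) hasSum_qr.summable,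
    hasSum_qr.tsum_eq, ENNReal.ofReal_one]

/-- The law of the index of a jump. -/
noncomputable def J : PMF ℕ :=
  ⟨fun j => ENNReal.ofReal (qr j - qr (j + 1)), by
    have h : HasSum (fun j => ENNReal.ofReal (qr j - qr (j + 1)))
      (∑' j, ENNReal.ofReal (qr j - qr (j + 1))) := ENNReal.summable.hasSum
    rwa [tsum_qr] at h⟩

/-- The law of the index of a jump, as a measure. -/
noncomputable def μ : Measure ℕ := J.toMeasure

instance : IsProbabilityMeasure μ := by unfold μ; infer_instance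

lemma μ_lt (j : ℕ) : μ {i | i < j} = ENNReal.ofReal (1 - qr j) := by
  have h : {i : ℕ | i < j} = (Finset.range j : Set ℕ) := by ext; simp
  rw [μ, h, PMF.toMeasure_apply_finset]
  change ∑ x ∈ Finset.range j, ENNReal.ofReal (qr x - qr (x + 1)) = _
  rw [← ENNReal.ofReal_sum_of_nonneg fun x _ => sub_nonneg.2 (qr_anti x),
    Finset.sum_range_sub', qr_zero]

lemma one_sub (j : ℕ) : 1 - ENNReal.ofReal (1 - qr j) = ENNReal.ofReal (qr j) := by
  have h : (1 : ℝ≥0∞) = ENNReal.ofReal 1 := ENNReal.ofReal_one.symm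
  rw [h, ← ENNReal.ofReal_sub _ (sub_nonneg.2 (qr_le_one j))]
  congr 1
  ring

lemma μ_ge (j : ℕ) : μ {i | j ≤ i} = ENNReal.ofReal (qr j) := by
  have h : {i : ℕ | j ≤ i} = {i | i < j}ᶜ := by ext; simp
  rw [h, prob_compl_eq_one_sub (MeasurableSet.of_discrete), μ_lt, one_sub]

/-- The probability space: independent indices. -/
noncomputable def P : Measure (ℕ → ℕ) := Measure.infinitePi (fun _ : ℕ => μ)

instance : IsProbabilityMeasure P := by unfold P; infer_instance

lemma P_all (m j : ℕ) : P {ω | ∀ i < m, ω i < j} = (ENNReal.ofReal (1 - qr j)) ^ m := by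
  have h : {ω : ℕ → ℕ | ∀ i < m, ω i < j} =
      Set.pi (Finset.range m : Finset ℕ) (fun _ => {i : ℕ | i < j}) := by
    ext ω; simp [Set.mem_pi]
  rw [P, h, Measure.infinitePi_pi _ (fun _ _ => MeasurableSet.of_discrete)]
  simp [μ_lt]

lemma P_ge (n j : ℕ) : P {ω | j ≤ ω n} = ENNReal.ofReal (qr j) := by
  have h := (measurePreserving_eval_infinitePi (fun _ : ℕ => μ) n).measure_preimage
    (s := {i | j ≤ i}) (MeasurableSet.of_discrete.nullMeasurableSet)
  rw [μ_ge] at h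
  exact h

/-- The step with index `i`. -/
def stp (i : ℕ) : Fin 1 → ℤ := fun _ => 2 ^ M i

/-- The steps. -/
def ξ (n : ℕ) (ω : ℕ → ℕ) : Fin 1 → ℤ := stp (ω n)

lemma isStep : IsStepSequence P ξ where
  meas n := (Measurable.of_discrete (f := stp)).comp (measurable_pi_apply n)
  indep := iIndepFun_infinitePi (X := fun _ => stp) (fun _ => Measurable.of_discrete)
  ident n := by
    have hm : ∀ n, Measurable (ξ n) := fun n =>
      (Measurable.of_discrete (f := stp)).comp (measurable_pi_apply n)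
    have key : ∀ n, P.map (ξ n) = μ.map stp := by
      intro n
      have h1 : ξ n = stp ∘ (fun ω : ℕ → ℕ => ω n) := rfl
      have h2 := Measure.map_map (μ := P) (g := stp) (f := fun ω : ℕ → ℕ => ω n)
        Measurable.of_discrete (measurable_pi_apply n)
      rw [h1, ← h2, P, Measure.infinitePi_map_eval]
    exact ⟨(hm n).aemeasurable, (hm 0).aemeasurable, by rw [key, key]⟩

lemma walk_eq (n : ℕ) (ω : ℕ → ℕ) : walk ξ n ω = fun _ => pos ω n := by
  ext i
  simp [walk, ξ, stp, pos, Finset.sum_apply]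

lemma transient : Transient P ξ := by
  intro x
  unfold green
  rw [tsum_eq_sum (s := Finset.range ((x 0).toNat + 1))]
  · exact ENNReal.sum_lt_top.2 fun n _ => measure_lt_top _ _
  · intro n hn
    rw [Finset.mem_range, not_lt] at hn
    have : {ω : ℕ → ℕ | walk ξ n ω = x} = ∅ := by
      ext ω
      simp only [Set.mem_ofPred_eq, Set.mem_empty_iff_false, iff_false, walk_eq]
      intro h
      have h1 := le_pos ω n
      have h2 : pos ω n = x 0 := congrFun h 0
      omega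
    rw [this, measure_empty]

lemma term_le_pos {ω : ℕ → ℕ} {i n : ℕ} (h : i < n) : (2 : ℤ) ^ M (ω i) ≤ pos ω n :=
  Finset.single_le_sum (f := fun i => (2 : ℤ) ^ M (ω i)) (fun i _ => by positivity)
    (Finset.mem_range.2 h)

lemma lt_of_mem {ω : ℕ → ℕ} {n j : ℕ} (h : walk ξ n ω ∈ V 1 (M j)) : ∀ i < n, ω i < j := by
  intro i hi
  by_contra hlt
  push Not at hlt
  have h1 := (h 0).2
  rw [walk_eq] at h1
  have h2 : (2 : ℤ) ^ M j ≤ 2 ^ M (ω i) := pow_le_pow_right₀ (by norm_num) (M_mono hlt)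
  have h3 := term_le_pos (ω := ω) hi
  have h4 : pos ω n < 2 ^ M j := h1
  linarith

lemma zero_mem (ω : ℕ → ℕ) (k : ℕ) : walk ξ 0 ω ∈ V 1 k := by
  intro i
  rw [walk_eq]
  have : (0 : ℤ) < 2 ^ k := by positivity
  simp [pos]

lemma liminf_zero (u : ℕ → ℝ) (h0 : ∀ n, 0 ≤ u n) (φ : ℕ → ℕ) (hφ : Tendsto φ atTop atTop)
    (hu : Tendsto (fun n => u (φ n)) atTop (𝓝 0)) :
    liminf (fun n => ((u n : ℝ) : EReal)) atTop = 0 := by
  apply le_antisymm
  · have h1 : liminf (fun n => ((u n : ℝ) : EReal)) atTop ≤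
        liminf (fun n => ((u n : ℝ) : EReal)) (map φ atTop) :=
      liminf_le_liminf_of_le hφ
    have h2 : Tendsto (fun n => ((u (φ n) : ℝ) : EReal)) atTop (𝓝 ((0 : ℝ) : EReal)) :=
      (continuous_coe_real_ereal.tendsto _).comp hu
    have h3 := h2.liminf_eq
    rw [EReal.coe_zero] at h3
    rw [← h3]
    exact h1
  · exact le_liminf_of_le (h := Eventually.of_forall fun n => by exact_mod_cast h0 n)

lemma M_tendsto : Tendsto M atTop atTop := tendsto_atTop_mono self_le_M tendsto_id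

lemma ratio_tendsto : Tendsto (fun j : ℕ => (2 : ℝ) / (2 * j + 1)) atTop (𝓝 0) := by
  apply Tendsto.div_atTop tendsto_const_nhds
  apply tendsto_atTop_add_const_right
  exact Tendsto.const_mul_atTop (by norm_num) tendsto_natCast_atTop_atTop

lemma ratio_le (j : ℕ) (x : ℝ) (hx : x ≤ 2 * a j) : x / M j ≤ 2 / (2 * j + 1) := by
  rcases Nat.eq_zero_or_pos j with rfl | hj
  · have : M 0 = 0 := by simp [M, e]
    rw [this]
    simp
  · have hM : (0 : ℝ) < M j := by exact_mod_cast lt_of_lt_of_le hj (self_le_M j)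
    have h1 : ((2 * j + 1 : ℕ) : ℝ) * a j ≤ M j := by exact_mod_cast M_ge j
    push_cast at h1
    rw [div_le_div_iff₀ hM (by positivity)]
    nlinarith

lemma lam_eq : lam P ξ = 0 := by
  apply liminf_zero _ _ M M_tendsto
  · apply squeeze_zero _ _ ratio_tendsto
    · intro j
      apply div_nonneg _ (Nat.cast_nonneg _)
      rcases eq_or_ne (U P ξ (V 1 (M j))) ∞ with h | h
      · simp [h]
      · apply Real.logb_nonneg (by norm_num)
        rw [← ENNReal.toReal_one]
        apply ENNReal.toReal_mono h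
        have := ENNReal.le_tsum (f := fun n => P {ω | walk ξ n ω ∈ V 1 (M j)}) 0
        refine le_trans ?_ this
        have h2 : {ω : ℕ → ℕ | walk ξ 0 ω ∈ V 1 (M j)} = Set.univ :=
          Set.eq_univ_of_forall fun ω => zero_mem ω _
        simp only [h2, measure_univ, le_refl]
    · intro j
      apply ratio_le
      have h1 : U P ξ (V 1 (M j)) ≤ (ENNReal.ofReal (qr j))⁻¹ := by
        rw [← one_sub, ← ENNReal.tsum_geometric]
        apply ENNReal.tsum_le_tsum
        intro n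
        rw [← P_all]
        exact measure_mono fun ω hω => lt_of_mem hω
      have h2 : (ENNReal.ofReal (qr j))⁻¹ ≠ ∞ := by
        rw [ENNReal.inv_ne_top]
        exact (ENNReal.ofReal_pos.2 (qr_pos j)).ne'
      have h3 := ENNReal.toReal_mono h2 h1
      rw [ENNReal.toReal_inv, ENNReal.toReal_ofReal (qr_pos j).le] at h3
      have h4 : (qr j)⁻¹ = (2 : ℝ) ^ a j := by
        unfold qr; rw [one_div, inv_pow, inv_inv]
      rw [h4] at h3
      have h5 : (1 : ℝ) ≤ (U P ξ (V 1 (M j))).toReal := by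
        rw [← ENNReal.toReal_one]
        apply ENNReal.toReal_mono (ne_top_of_le_ne_top h2 h1)
        have := ENNReal.le_tsum (f := fun n => P {ω | walk ξ n ω ∈ V 1 (M j)}) 0
        refine le_trans ?_ this
        have h2 : {ω : ℕ → ℕ | walk ξ 0 ω ∈ V 1 (M j)} = Set.univ :=
          Set.eq_univ_of_forall fun ω => zero_mem ω _
        simp only [h2, measure_univ, le_refl]
      have h6 : Real.logb 2 (U P ξ (V 1 (M j))).toReal ≤ a j := by
        rw [Real.logb_le_iff_le_rpow (by norm_num) (by linarith), Real.rpow_natCast]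
        exact h3
      have h7 : (0 : ℝ) ≤ a j := Nat.cast_nonneg _
      linarith
  · intro n
    apply div_nonneg _ (Nat.cast_nonneg _)
    rcases eq_or_ne (U P ξ (V 1 n)) ∞ with h | h
    · simp [h]
    · apply Real.logb_nonneg (by norm_num)
      rw [← ENNReal.toReal_one]
      apply ENNReal.toReal_mono h
      have := ENNReal.le_tsum (f := fun m => P {ω | walk ξ m ω ∈ V 1 n}) 0
      refine le_trans ?_ this
      have h2 : {ω : ℕ → ℕ | walk ξ 0 ω ∈ V 1 n} = Set.univ :=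
        Set.eq_univ_of_forall fun ω => zero_mem ω _
      simp only [h2, measure_univ, le_refl]

/-! ## The lower Hausdorff dimension -/

/-- The exponents of the windows. -/
def K (j : ℕ) : ℕ := a (j + 1) - (j + 1)

lemma K_ge (j : ℕ) (hj : 1 ≤ j) : (j + 1) * M j ≤ K j := by
  unfold K
  have h1 := a_succ j
  have h2 := a_ge (j + 1) (by omega)
  have h3 : (2 * j + 2) * M j = 2 * ((j + 1) * M j) := by ring
  omega

lemma K_tendsto : Tendsto K atTop atTop := by
  apply tendsto_atTop_mono' atTop _ tendsto_id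
  filter_upwards [eventually_ge_atTop 1] with j hj
  have h1 := K_ge j hj
  have h2 := self_le_M j
  have h3 : 1 * M j ≤ (j + 1) * M j := Nat.mul_le_mul_right _ (by omega)
  simp only [id]
  omega

lemma hausdorff_ge (ω : ℕ → ℕ) (h : ∀ᶠ j in atTop, ∀ n < 2 ^ K j, ω n ≤ j) :
    1 ≤ lowerHausdorff (rangeOf ξ ω) := by
  apply le_sInf
  rintro _ ⟨α, hα0, hα, rfl⟩
  by_contra hlt
  push Not at hlt
  have hα1 : α < 1 := by exact_mod_cast hlt
  have hα' := hα.comp K_tendsto
  have hev : ∀ᶠ j in atTop, (1 : ℝ) / 4 ≤ N α (rangeOf ξ ω) (K j) := by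
    obtain ⟨j0, hj0⟩ := exists_nat_ge (1 / (1 - α))
    filter_upwards [h, eventually_ge_atTop 1, eventually_ge_atTop j0] with j hj hj1 hj2
    have hK := K_ge j hj1
    have hM := self_le_M j
    have hDk : M j + 1 ≤ K j := by
      have : 2 * M j ≤ (j + 1) * M j := Nat.mul_le_mul_right _ (by omega)
      omega
    have hcond : α * ((K j : ℝ) + 1) ≤ (K j : ℝ) + 1 - M j := by
      have h1 : ((j : ℝ) + 1) * M j ≤ K j := by exact_mod_cast hK
      have h2 : 1 / (1 - α) ≤ (j : ℝ) := hj0.trans (by exact_mod_cast hj2)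
      have h3 : 1 ≤ (1 - α) * j := by
        rw [div_le_iff₀ (by linarith)] at h2
        linarith
      have hMp : (0 : ℝ) ≤ M j := Nat.cast_nonneg _
      have h4 : (1 - α) * (((j : ℝ) + 1) * M j) ≤ (1 - α) * K j :=
        mul_le_mul_of_nonneg_left h1 (by linarith)
      have h5 : (M j : ℝ) ≤ (1 - α) * (((j : ℝ) + 1) * M j) := by nlinarith
      linarith
    apply le_csInf
    · refine ⟨_, 2, ![K j, K j], ![fun _ => -1, fun _ => 0], ?_, rfl⟩
      rintro x ⟨-, hx⟩
      have hxV : x ∈ V 1 (K j) := by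
        rcases hk : K j with _ | k
        · rw [hk] at hx; exact hx
        · rw [hk] at hx; exact hx.1
      obtain ⟨h1, h2⟩ := hxV 0
      rw [Set.mem_iUnion]
      rcases lt_or_ge (x 0) 0 with hneg | hnn
      · refine ⟨0, fun i => ?_⟩
        have : i = 0 := Subsingleton.elim _ _
        subst this
        simp only [Matrix.cons_val_zero]
        constructor <;> linarith
      · refine ⟨1, fun i => ?_⟩
        have : i = 0 := Subsingleton.elim _ _
        subst this
        simp only [Matrix.cons_val_one]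
        constructor <;> simp <;> linarith
    · rintro c ⟨m, ℓ, jj, hcov, rfl⟩
      refine cost_lower α hα0 hα1.le (K j) (M j) hDk hcond _ ?_ m ℓ jj hcov
      intro v hv1 hv2
      have hD0 : (0 : ℤ) < 2 ^ M j := by positivity
      have hT0 : (0 : ℤ) < 2 ^ (K j - 1 - M j) := by positivity
      obtain ⟨n, hn1, hn2⟩ := hit ω (v * 2 ^ M j) (M j) (mul_nonneg (by linarith) hD0.le) (by
        intro n hn
        apply M_mono
        apply hj
        have h1 : v * 2 ^ M j < 2 * 2 ^ (K j - 1 - M j) * 2 ^ M j :=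
          mul_lt_mul_of_pos_right hv2 hD0
        have h2 : (2 : ℤ) * 2 ^ (K j - 1 - M j) * 2 ^ M j = 2 ^ K j := by
          rw [← pow_succ', ← pow_add]; congr 1; omega
        have h3 : (n : ℤ) < 2 ^ K j := by linarith
        exact_mod_cast h3)
      refine ⟨walk ξ n ω, ⟨n, rfl⟩, ?_, ?_⟩
      · rw [walk_eq]; exact hn1
      · rw [walk_eq, add_mul, one_mul]; exact hn2
  have := ge_of_tendsto hα' hev
  norm_num at this

lemma ae_hausdorff : ∀ᵐ ω ∂P, 1 ≤ lowerHausdorff (rangeOf ξ ω) := by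
  have hsum : ∑' j, P {ω | ∃ n < 2 ^ K j, j + 1 ≤ ω n} ≠ ∞ := by
    have hle : ∀ j, P {ω | ∃ n < 2 ^ K j, j + 1 ≤ ω n} ≤ ENNReal.ofReal ((1 / 2) ^ (j + 1)) := by
      intro j
      have h1 : {ω : ℕ → ℕ | ∃ n < 2 ^ K j, j + 1 ≤ ω n} ⊆
          ⋃ n ∈ Finset.range (2 ^ K j), {ω | j + 1 ≤ ω n} := by
        rintro ω ⟨n, hn, h⟩
        simp only [Set.mem_iUnion]
        exact ⟨n, Finset.mem_range.2 hn, h⟩
      refine (measure_mono h1).trans ((measure_biUnion_finset_le _ _).trans ?_)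
      simp only [P_ge, Finset.sum_const, Finset.card_range, nsmul_eq_mul]
      rw [← ENNReal.ofReal_natCast, ← ENNReal.ofReal_mul (Nat.cast_nonneg _)]
      apply ENNReal.ofReal_le_ofReal
      have h2 := self_le_a (j + 1)
      have h3 : a (j + 1) = K j + (j + 1) := by unfold K; omega
      rw [qr, h3, pow_add]
      push_cast
      rw [← mul_assoc, ← mul_pow]
      norm_num
    refine ne_top_of_le_ne_top ?_ (ENNReal.tsum_le_tsum hle)
    have hs : Summable fun j : ℕ => ((1 : ℝ) / 2) ^ (j + 1) :=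
      (summable_nat_add_iff 1).2 summable_geometric_two
    rw [← ENNReal.ofReal_tsum_of_nonneg (fun j => by positivity) hs]
    exact ENNReal.ofReal_ne_top
  filter_upwards [ae_eventually_notMem hsum] with ω hω
  apply hausdorff_ge
  filter_upwards [hω] with j hj n hn
  by_contra hlt
  push Not at hlt
  exact hj ⟨n, hn, hlt⟩

/-! ## The lower Minkowski dimension -/

lemma logb_nat_nonneg (n : ℕ) : 0 ≤ Real.logb 2 (n : ℝ) := by
  rcases Nat.eq_zero_or_pos n with rfl | h
  · simp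
  · exact Real.logb_nonneg (by norm_num) (by exact_mod_cast h)

lemma ae_minkowski : ∀ᵐ ω ∂P, lowerMinkowski (rangeOf ξ ω) = 0 := by
  have hsum : ∑' j, P {ω | ∀ i < 2 ^ (a j + j), ω i < j} ≠ ∞ := by
    have hle : ∀ j, P {ω | ∀ i < 2 ^ (a j + j), ω i < j} ≤ ENNReal.ofReal ((1 / 2) ^ j) := by
      intro j
      rw [P_all, ← ENNReal.ofReal_pow (sub_nonneg.2 (qr_le_one j))]
      apply ENNReal.ofReal_le_ofReal
      have h1 : 1 - qr j ≤ Real.exp (-qr j) := by
        have := Real.add_one_le_exp (-qr j); linarith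
      have h2 : (1 - qr j) ^ (2 ^ (a j + j)) ≤ Real.exp (-qr j) ^ (2 ^ (a j + j)) :=
        pow_le_pow_left₀ (sub_nonneg.2 (qr_le_one j)) h1 _
      rw [← Real.exp_nat_mul] at h2
      have h3 : ((2 ^ (a j + j) : ℕ) : ℝ) * -qr j = -(2 ^ j) := by
        rw [qr, pow_add]
        push_cast
        have : (2 : ℝ) ^ a j * (1 / 2) ^ a j = 1 := by rw [← mul_pow]; norm_num
        linear_combination (-(2 : ℝ) ^ j) * this
      rw [h3, Real.exp_neg] at h2
      refine h2.trans ?_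
      have h4 : (2 : ℝ) ^ j ≤ Real.exp (2 ^ j) := by
        have := Real.add_one_le_exp ((2 : ℝ) ^ j); linarith
      rw [one_div, inv_pow]
      exact inv_anti₀ (by positivity) h4
    refine ne_top_of_le_ne_top ?_ (ENNReal.tsum_le_tsum hle)
    rw [← ENNReal.ofReal_tsum_of_nonneg (fun j => by positivity) summable_geometric_two]
    exact ENNReal.ofReal_ne_top
  filter_upwards [ae_eventually_notMem hsum] with ω hω
  apply liminf_zero _ _ M M_tendsto
  · apply squeeze_zero' _ _ ratio_tendsto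
    · exact Eventually.of_forall fun j => div_nonneg (logb_nat_nonneg _) (Nat.cast_nonneg _)
    · filter_upwards [hω] with j hj
      apply ratio_le
      have hj' : ∃ i < 2 ^ (a j + j), j ≤ ω i := by
        by_contra hcon
        push Not at hcon
        exact hj hcon
      obtain ⟨i, hi, hji⟩ := hj'
      have hsub : rangeOf ξ ω ∩ V 1 (M j) ⊆
          (Finset.image (fun n => walk ξ n ω) (Finset.range (2 ^ (a j + j))) : Set (Fin 1 → ℤ)) := by
        rintro _ ⟨⟨n, rfl⟩, hn⟩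
        rw [Finset.coe_image]
        refine ⟨n, ?_, rfl⟩
        rw [Finset.coe_range, Set.mem_Iio]
        by_contra hge
        push Not at hge
        have := lt_of_mem hn i (by omega)
        omega
      have hcard : (rangeOf ξ ω ∩ V 1 (M j)).ncard ≤ 2 ^ (a j + j) := by
        refine (Set.ncard_le_ncard hsub (Finset.finite_toSet _)).trans ?_
        rw [Set.ncard_coe_finset]
        exact Finset.card_image_le.trans (by simp)
      rcases Nat.eq_zero_or_pos (rangeOf ξ ω ∩ V 1 (M j)).ncard with h0 | h0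
      · rw [h0]; simp
      · rw [Real.logb_le_iff_le_rpow (by norm_num) (by exact_mod_cast h0)]
        have h1 : ((rangeOf ξ ω ∩ V 1 (M j)).ncard : ℝ) ≤ (2 : ℝ) ^ (a j + j) := by
          exact_mod_cast hcard
        refine h1.trans ?_
        rw [← Real.rpow_natCast]
        apply Real.rpow_le_rpow_of_exponent_le (by norm_num)
        have : (j : ℝ) ≤ a j := by exact_mod_cast self_le_a j
        push_cast
        linarith
  · intro n
    exact div_nonneg (logb_nat_nonneg _) (Nat.cast_nonneg _)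

/-- Q1 has a negative answer: there is a transient random walk on `ℤ` for which, almost surely,
the lower Minkowski dimension of the range is `λ_X = 0`, but the lower Hausdorff dimension of the
range is at least `1`. -/
theorem result :
    (∃ (Ω : Type) (_ : MeasurableSpace Ω) (P : Measure Ω) (_ : IsProbabilityMeasure P)
      (ξ : ℕ → Ω → (Fin 1 → ℤ)), IsStepSequence P ξ ∧ Transient P ξ ∧ lam P ξ = 0 ∧
        ∀ᵐ ω ∂P, lowerMinkowski (rangeOf ξ ω) = 0 ∧ 1 ≤ lowerHausdorff (rangeOf ξ ω)) ∧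
    ¬ (∀ (d : ℕ), 1 ≤ d → ∀ (Ω : Type) (_ : MeasurableSpace Ω) (P : Measure Ω)
      (_ : IsProbabilityMeasure P) (ξ : ℕ → Ω → (Fin d → ℤ)), IsStepSequence P ξ →
        Transient P ξ → ∀ᵐ ω ∂P,
          lowerHausdorff (rangeOf ξ ω) = lowerMinkowski (rangeOf ξ ω) ∧
          lowerMinkowski (rangeOf ξ ω) = lam P ξ) := by
  refine ⟨⟨ℕ → ℕ, inferInstance, P, inferInstance, ξ, isStep, transient, lam_eq, ?_⟩, ?_⟩
  · filter_upwards [ae_minkowski, ae_hausdorff] with ω h1 h2 using ⟨h1, h2⟩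
  · intro h
    have h1 := h 1 le_rfl (ℕ → ℕ) inferInstance P inferInstance ξ isStep transient
    obtain ⟨ω, ⟨h2, -⟩, h3, h4⟩ := (h1.and (ae_minkowski.and ae_hausdorff)).exists
    rw [h2, h3] at h4
    exact absurd h4 (by norm_num)

end Pool.Agent.Results.MP_fbfbfd_pr.SparseJumps
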